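import Pool.Agent.H64.AK.Om

/-! FIL of the board ak_modules: Martin's axiom gives an uncountable finitely branching subset. -/

set_option autoImplicit false

open Cardinal

namespace Pool.Agent.H81.AK

open Pool.Agent.H20.SL Pool.Agent.H64.AK Pool.Agent.H60.CP

/-- comparable immediate successors of the same node are equal -/
theorem suc_eq {W : Type} [PartialOrder W] {c : Option W} {u v : W} (hu : Suc c u) (hv : Suc c v)
    (h : u ≤ v) : u = v := by
  cases c with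
  | none => exact le_antisymm h (hv h)
  | some c =>
    rcases h.eq_or_lt with h | h
    · exact h
    · exact absurd h (hv.2 hu.1)

theorem suc_sub {W : Type} [PartialOrder W] (hT : IsTree W) (c : Option W) (t : W) :
    {u | Suc c u ∧ u ≤ t}.Subsingleton := by
  intro u hu v hv
  rcases hT.comp u v t hu.2 hv.2 with h | h
  · exact suc_eq hu.1 hv.1 h
  · exact (suc_eq hv.1 hu.1 h).symm

/-- FIL: Martin's axiom gives an uncountable finitely branching subset -/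
theorem fil (hCCC : T_CCC) (hDNS : T_DNS) : T_FIL := by
  classical
  intro hMA W _ hW
  obtain ⟨p₀, hp₀⟩ := hDNS W hW
  have hcard : #W ≤ #Om := by rw [mk_Om]; exact hW.card
  obtain ⟨idx⟩ := (Cardinal.le_def W Om).1 hcard
  have hcc : ∀ A : Set {q : Cnd W // q ≤ p₀}, (∀ a ∈ A, ∀ b ∈ A, a ≠ b →
      ¬ ∃ c : {q : Cnd W // q ≤ p₀}, c ≤ a ∧ c ≤ b) → A.Countable := by
    intro A hA
    have h1 : (Subtype.val '' A).Countable := by
      refine hCCC W hW _ ?_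
      rintro _ ⟨a, ha, rfl⟩ _ ⟨b, hb, rfl⟩ hab ⟨c, hca, hcb⟩
      exact hA a ha b hb (fun h => hab (congrArg Subtype.val h))
        ⟨⟨c, hca.trans a.2⟩, hca, hcb⟩
    exact Set.countable_of_injective_of_countable_image Subtype.val_injective.injOn h1
  let D : Option W ⊕ Om → Set {q : Cnd W // q ≤ p₀} := fun i => match i with
    | Sum.inl c => {q | c ∈ q.1.d}
    | Sum.inr w => {q | ∃ x ∈ q.1.a, ¬ idx x ≤ w}
  have hι : #(Option W ⊕ Om) ≤ ℵ₁ := by
    rw [Cardinal.mk_sum, Cardinal.mk_option, Cardinal.lift_id, Cardinal.lift_id]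
    have hi : ℵ₀ ≤ ℵ₁ := Cardinal.aleph0_le_aleph 1
    refine Cardinal.add_le_of_le hi (Cardinal.add_le_of_le hi hW.card
      (Cardinal.one_le_aleph0.trans hi)) mk_Om.le
  have hD : ∀ i, ∀ p : {q : Cnd W // q ≤ p₀}, ∃ q ∈ D i, q ≤ p := by
    rintro (c | w) p
    · have hle : (⟨p.1.a, insert c p.1.d⟩ : Cnd W) ≤ p.1 := by
        rw [Cnd.le_def]
        exact ⟨Finset.Subset.refl _, Finset.subset_insert _ _, fun c' _ t ht u _ hut =>
          ⟨t, ht, hut⟩⟩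
      exact ⟨⟨_, hle.trans p.2⟩, Finset.mem_insert_self c p.1.d, hle⟩
    · have hS : {x | idx x ≤ w}.Countable :=
        (cIic w).preimage idx.injective
      obtain ⟨r, hr, x, hx, hxS⟩ := hp₀ p.1 p.2 _ hS
      exact ⟨⟨r, hr.trans p.2⟩, ⟨x, hx, hxS⟩, hr⟩
  have : Nonempty {q : Cnd W // q ≤ p₀} := ⟨⟨p₀, le_refl _⟩⟩
  obtain ⟨G, -, -, hdir, hmeet⟩ := hMA {q : Cnd W // q ≤ p₀} hcc (Option W ⊕ Om) D hι hD
  refine ⟨{x | ∃ t, (∃ q ∈ G, t ∈ q.1.a) ∧ x ≤ t}, ?_, ?_, ?_⟩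
  · intro hc
    have h1 : {t : W | ∃ q ∈ G, t ∈ q.1.a}.Countable := by
      refine Set.Countable.mono ?_ hc
      intro t ht
      exact ⟨t, ht, le_rfl⟩
    obtain ⟨w, hw⟩ := bdd (h1.image idx)
    obtain ⟨q, hq, hqG⟩ := hmeet (Sum.inr w)
    obtain ⟨x, hx, hxw⟩ := hq
    exact hxw (hw (idx x) ⟨x, ⟨q, hqG, hx⟩, rfl⟩).le
  · rintro a ⟨t, ht, hat⟩ b hb
    exact ⟨t, ht, hb.trans hat⟩
  · intro c
    obtain ⟨q, hq, hqG⟩ := hmeet (Sum.inl c)
    have hq' : c ∈ q.1.d := hq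
    refine Set.Finite.subset (Set.Finite.biUnion (q.1.a.finite_toSet)
      fun t' _ => (suc_sub hW.tree c t').finite) ?_
    rintro u ⟨hu, t, ⟨r, hrG, htr⟩, hut⟩
    obtain ⟨s, -, hsq, hsr⟩ := hdir q hqG r hrG
    obtain ⟨t', ht', hut'⟩ := hsq.2.2 c hq' t (hsr.1 htr) u hu hut
    simp only [Set.mem_iUnion]
    exact ⟨t', ht', hu, hut'⟩

end Pool.Agent.H81.AK
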